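import Mathlib
import Pool.Agent.Q79.PowG

/-!
# Area and gaps of non-hyperbolic parameters at the critical radii

For a rational map `R = P / Q` and a critical radius `e` (not coming from `0` or `∞`) the
parameters `s` near the circle `|s| = e` for which `s R(z ^ n)` is not hyperbolic form a set of
area `O(n ^ -(1 + 2 / k))`, and the hyperbolic ones are `O(n ^ -(1 + 1 / k))`-dense there.
-/

set_option autoImplicit false

open Set Filter Topology MeasureTheory

namespace Pool.Agent.Results.MP_8f2e1c_an.CriticalRadiusArea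

/-- `P / Q` is in lowest terms and every critical point (point of the Riemann sphere where the map
is not locally injective) has an orbit converging to an attracting periodic cycle. This is word
for word the condition of the frozen statement `S05373`. -/
def Hyperbolic (P Q : Polynomial ℂ) : Prop :=
  IsCoprime P Q ∧ ∃ f : OnePoint ℂ → OnePoint ℂ, Continuous f ∧
    (∀ z : ℂ, Q.eval z ≠ 0 →
      f (OnePoint.some z) = OnePoint.some (P.eval z / Q.eval z)) ∧
    ∀ c : OnePoint ℂ, (¬ ∃ U ∈ nhds c, Set.InjOn f U) →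
      ∃ z : OnePoint ℂ, ∃ n : ℕ, 0 < n ∧ f^[n] z = z ∧
        (∃ U ∈ nhds z, ∀ w ∈ U,
          Filter.Tendsto (fun k : ℕ => f^[n * k] w) Filter.atTop (nhds z)) ∧
        Filter.Tendsto (fun k : ℕ => f^[n * k] c) Filter.atTop (nhds z)

/-- Let `R = P / Q` be a rational map of degree `D ≥ 1`, let `e > 0` with `|e R(0)| ≠ 1` and
`|e R(∞)| ≠ 1`, and let `k ≥ 1` be such that every critical point `y` of `R` with `|e R(y)| = 1`
has multiplicity at most `k`. Then there are `C, δ > 0` such that for all large `n` the set of the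
`s` with `||s| - e| ≤ δ` for which `s R(z ^ n)` is not hyperbolic has area at most
`C n ^ (-(1 + 2 / k))`, and every `s` with `||s| - e| ≤ δ` is at distance less than
`C n ^ (-(1 + 1 / k))` from an `s'` for which `s' R(z ^ n)` is hyperbolic. -/
theorem result : ∀ P Q : Polynomial ℂ, IsCoprime P Q → ∀ D : ℕ,
    D = max P.natDegree Q.natDegree → 1 ≤ D → ∀ e : ℝ, 0 < e →
    e * ‖P.coeff 0‖ ≠ ‖Q.coeff 0‖ → e * ‖P.coeff D‖ ≠ ‖Q.coeff D‖ → ∀ k : ℕ, 1 ≤ k →
    (∀ y : ℂ, e * ‖P.eval y‖ = ‖Q.eval y‖ →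
      (Polynomial.derivative P * Q - P * Polynomial.derivative Q).rootMultiplicity y ≤ k) →
    ∃ (C δ : ℝ) (n₀ : ℕ), 0 < C ∧ 0 < δ ∧ ∀ n : ℕ, n₀ ≤ n →
      volume {s : ℂ | |‖s‖ - e| ≤ δ ∧
        ¬ Hyperbolic (Polynomial.C s * Polynomial.expand ℂ n P) (Polynomial.expand ℂ n Q)} ≤
        ENNReal.ofReal (C * (n : ℝ) ^ (-(1 + 2 / (k : ℝ)))) ∧
      ∀ s : ℂ, |‖s‖ - e| ≤ δ → ∃ s' : ℂ, ‖s' - s‖ < C * (n : ℝ) ^ (-(1 + 1 / (k : ℝ))) ∧
        Hyperbolic (Polynomial.C s' * Polynomial.expand ℂ n P) (Polynomial.expand ℂ n Q) := by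
  intro P Q hc D hD hD1 e he h0 hDD k hk hm
  exact Pool.Agent.Q79.PW.main hc hD hD1 he h0 hDD hk hm

end Pool.Agent.Results.MP_8f2e1c_an.CriticalRadiusArea
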