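import Mathlib
import Pool.Agent.Q79.MonH

/-!
# The families `a z ^ n R(z)`

For every fixed rational function `R` and all large `n` the parameters `a`, in the whole plane, for
which not all critical points of `a z ^ n R(z)` converge to `0` or `∞` form a set of logarithmic
area between `n ^ (-4) / 400` and `K n ^ (-4)`, and every `a` is at relative distance less than
`K n ^ (-2)` from a parameter for which all of them do.
-/

set_option autoImplicit false

open Set Filter Topology MeasureTheory Polynomial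

namespace Pool.Agent.Results.MP_8f2e1c_an.MonomialFamilies

/-- `P / Q` is in lowest terms and every critical point (point of the Riemann sphere where the map
is not locally injective) has an orbit converging to an attracting periodic cycle. This is word
for word the condition of the frozen statement `S05373`. -/
def Hyperbolic (P Q : ℂ[X]) : Prop :=
  IsCoprime P Q ∧ ∃ f : OnePoint ℂ → OnePoint ℂ, Continuous f ∧
    (∀ z : ℂ, Q.eval z ≠ 0 →
      f (OnePoint.some z) = OnePoint.some (P.eval z / Q.eval z)) ∧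
    ∀ c : OnePoint ℂ, (¬ ∃ U ∈ nhds c, Set.InjOn f U) →
      ∃ z : OnePoint ℂ, ∃ n : ℕ, 0 < n ∧ f^[n] z = z ∧
        (∃ U ∈ nhds z, ∀ w ∈ U,
          Filter.Tendsto (fun k : ℕ => f^[n * k] w) Filter.atTop (nhds z)) ∧
        Filter.Tendsto (fun k : ℕ => f^[n * k] c) Filter.atTop (nhds z)

/-- `P / Q` is in lowest terms and the orbit of every critical point (point of the Riemann sphere
where the map is not locally injective) converges to `0` or to `∞`, where this point is an
attracting fixed point. -/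
def CriticalToZeroInfty (P Q : ℂ[X]) : Prop :=
  IsCoprime P Q ∧ ∃ f : OnePoint ℂ → OnePoint ℂ, Continuous f ∧
    (∀ z : ℂ, Q.eval z ≠ 0 →
      f (OnePoint.some z) = OnePoint.some (P.eval z / Q.eval z)) ∧
    ∀ c : OnePoint ℂ, (¬ ∃ U ∈ nhds c, Set.InjOn f U) →
      ∃ z : OnePoint ℂ, (z = OnePoint.some 0 ∨ z = OnePoint.infty) ∧ f z = z ∧
        (∃ U ∈ nhds z, ∀ w ∈ U,
          Filter.Tendsto (fun k : ℕ => f^[k] w) Filter.atTop (nhds z)) ∧
        Filter.Tendsto (fun k : ℕ => f^[k] c) Filter.atTop (nhds z)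

/-- Logarithmic area: the measure `dA(w) / |w| ^ 2` on the plane. It is invariant under all
multiplications `w ↦ b * w`, and the logarithmic area of the annulus `r ≤ |w| ≤ R` is
`2 π log (R / r)`. -/
noncomputable def logArea : Measure ℂ :=
  (volume : Measure ℂ).withDensity (fun w => ENNReal.ofReal ((‖w‖ ^ 2)⁻¹))

/-- Let `R = P / Q` be a nonconstant rational function with `R(0) ≠ 0, ∞`. There is a constant `K`
such that for all large `n`: (1) the maps `a z ^ n R(z)` all of whose critical points converge to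
`0` or `∞` are hyperbolic; (2) the `a`, in the whole plane, for which not all critical points of
`a z ^ n R(z)` converge to `0` or `∞` form a set whose logarithmic area is at least
`n ^ (-4) / 400` and at most `K n ^ (-4)`; (3) every `a ≠ 0` is at distance less than
`K n ^ (-2) |a|` from an `a'` for which all of them do. -/
theorem result : ∀ P Q : ℂ[X], IsCoprime P Q → P.eval 0 ≠ 0 → Q.eval 0 ≠ 0 →
    0 < P.natDegree + Q.natDegree →
    ∃ (K : ℝ) (n₀ : ℕ), 0 < K ∧ ∀ n : ℕ, n₀ ≤ n →
      (∀ a : ℂ, CriticalToZeroInfty (C a * X ^ n * P) Q → Hyperbolic (C a * X ^ n * P) Q) ∧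
      ENNReal.ofReal (1 / 400 / (n : ℝ) ^ 4) ≤
        logArea {a : ℂ | ¬ CriticalToZeroInfty (C a * X ^ n * P) Q} ∧
      logArea {a : ℂ | ¬ CriticalToZeroInfty (C a * X ^ n * P) Q} ≤
        ENNReal.ofReal (K / (n : ℝ) ^ 4) ∧
      ∀ a : ℂ, a ≠ 0 → ∃ a' : ℂ, ‖a' - a‖ < K / (n : ℝ) ^ 2 * ‖a‖ ∧
        CriticalToZeroInfty (C a' * X ^ n * P) Q := by
  intro P Q hc hP hQ hd
  obtain ⟨K, n₁, hK, h1⟩ := Pool.Agent.Q79.MN.upper hc hP hQ
  obtain ⟨n₂, h2⟩ := Pool.Agent.Q79.MN.lower hc hP hQ hd
  refine ⟨K, max n₁ n₂, hK, fun n hn => ⟨fun a ha => ?_, h2 n ((le_max_right _ _).trans hn),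
    (h1 n ((le_max_left _ _).trans hn)).1, (h1 n ((le_max_left _ _).trans hn)).2⟩⟩
  exact Pool.Agent.Q79.MN.AllTo.hyp ha

end Pool.Agent.Results.MP_8f2e1c_an.MonomialFamilies
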