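import Mathlib
import Pool.Agent.Q77.Semi.Seq

/-! # Density of hyperbolicity among periodic sequences of rational maps

Fatou's conjecture says that every rational map `f` of degree `d ≥ 2` is a limit of hyperbolic ones.
We prove the conjecture for periodic sequences of rational maps instead of single maps, without any
assumption on the maps: if `f_0, f_1, f_2, …` is a periodic sequence of rational maps of degree
`d ≥ 2` (for instance the constant sequence `f, f, f, …`) and `ε > 0`, then there is a periodic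
sequence `g_0, g_1, g_2, …` of rational maps of degree `d`, with every `g_i` within `ε` of `f_i`,
which is hyperbolic: the composition of the maps `g_i` over a period is a hyperbolic rational map.
The perturbations are of the form `g_i = M_i ∘ f_i` with Möbius transformations `M_i` near the
identity. For a constant sequence this says that every neighbourhood of every rational map `f` of
degree `d` contains finitely many maps whose composition, in a suitable order and with repetitions,
is hyperbolic; so the semigroup generated by a nonempty open set of rational maps of degree `d`,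
for instance by a counterexample to the conjecture, always contains hyperbolic maps. -/

set_option autoImplicit false

open Topology Filter
open scoped OnePoint

namespace Pool.Agent.Results.MP_8f2e1c_an.PeriodicSequences

/-- `f` is the rational map `P / Q` on the Riemann sphere. -/
def IsRationalMap (P Q : Polynomial ℂ) (f : OnePoint ℂ → OnePoint ℂ) : Prop :=
  Continuous f ∧ ∀ z : ℂ, Q.eval z ≠ 0 →
    f (OnePoint.some z) = OnePoint.some (P.eval z / Q.eval z)

/-- Every critical point of `f` (point where `f` is not locally injective) has an orbit converging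
to an attracting periodic cycle: word for word the condition on `f` in the frozen statement
S05373. -/
def CriticalPointsAttracted (f : OnePoint ℂ → OnePoint ℂ) : Prop :=
  ∀ c : OnePoint ℂ, (¬ ∃ U ∈ nhds c, Set.InjOn f U) →
    ∃ z : OnePoint ℂ, ∃ n : ℕ, 0 < n ∧ f^[n] z = z ∧
      (∃ U ∈ nhds z, ∀ w ∈ U,
        Filter.Tendsto (fun k : ℕ => f^[n * k] w) Filter.atTop (nhds z)) ∧
      Filter.Tendsto (fun k : ℕ => f^[n * k] c) Filter.atTop (nhds z)

/-- `f` is a hyperbolic rational map of degree `D`. -/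
def HyperbolicOfDegree (D : ℕ) (f : OnePoint ℂ → OnePoint ℂ) : Prop :=
  (∃ A B : Polynomial ℂ, IsCoprime A B ∧ max A.natDegree B.natDegree = D ∧
    IsRationalMap A B f) ∧ CriticalPointsAttracted f

/-- The composition `f_{n-1} ∘ … ∘ f_1 ∘ f_0` of the first `n` maps of a sequence. -/
def composition (f : ℕ → OnePoint ℂ → OnePoint ℂ) : ℕ → OnePoint ℂ → OnePoint ℂ
  | 0 => id
  | n + 1 => f n ∘ composition f n

/-- The pair `(P', Q')` represents a rational map of degree `d`, with all coefficients at distance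
less than `ε` from those of `(P, Q)`. -/
def Near (d : ℕ) (ε : ℝ) (P Q P' Q' : Polynomial ℂ) : Prop :=
  IsCoprime P' Q' ∧ max P'.natDegree Q'.natDegree = d ∧
    ∀ i : ℕ, ‖P'.coeff i - P.coeff i‖ < ε ∧ ‖Q'.coeff i - Q.coeff i‖ < ε

/-- `P' / Q' = M ∘ (P / Q)` with a Möbius transformation `M = (a w + b) / (c w + e)` whose
coefficients differ by less than `ε` from those of the identity. -/
def MoebiusPerturbation (ε : ℝ) (P Q P' Q' : Polynomial ℂ) : Prop :=
  ∃ a b c e : ℂ, ‖a - 1‖ < ε ∧ ‖b‖ < ε ∧ ‖c‖ < ε ∧ ‖e - 1‖ < ε ∧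
    P' = Polynomial.C a * P + Polynomial.C b * Q ∧ Q' = Polynomial.C c * P + Polynomial.C e * Q

open Pool.Agent.H790R3.RB Pool.Agent.Q77.Semi

theorem composition_eq (f : ℕ → OnePoint ℂ → OnePoint ℂ) (n : ℕ) : composition f n = cps f n := by
  induction n with
  | zero => rfl
  | succ n ih => funext z; simp only [composition, cps, Function.comp_apply, ih]

theorem part1 (d : ℕ) (hd : 2 ≤ d) (k : ℕ) (hk : 1 ≤ k) (P Q : ℕ → Polynomial ℂ)
    (hPQ : ∀ i, IsCoprime (P i) (Q i) ∧ max (P i).natDegree (Q i).natDegree = d ∧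
      P (i + k) = P i ∧ Q (i + k) = Q i) (ε : ℝ) (hε : 0 < ε) :
    ∃ N : ℕ, 1 ≤ N ∧ ∃ (p q : ℕ → Polynomial ℂ) (g : ℕ → OnePoint ℂ → OnePoint ℂ),
      (∀ i, Near d ε (P i) (Q i) (p i) (q i) ∧ MoebiusPerturbation ε (P i) (Q i) (p i) (q i) ∧
        IsRationalMap (p i) (q i) (g i) ∧ p (i + k * N) = p i ∧ q (i + k * N) = q i ∧
        g (i + k * N) = g i) ∧
      HyperbolicOfDegree (d ^ (k * N)) (composition g (k * N)) := by
  have hd1 : 1 ≤ d := by omega
  obtain ⟨h1, h2⟩ := PQ SP d hd1
  choose X₀ hX₀nd hX₀P hX₀Q _ using fun i => h2 (P i) (Q i) (hPQ i).1 (hPQ i).2.1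
  have hPmod : ∀ i, P (i % k) = P i ∧ Q (i % k) = Q i := by
    have h3 : ∀ n i, P (i + k * n) = P i ∧ Q (i + k * n) = Q i := by
      intro n
      induction n with
      | zero => intro i; simp
      | succ n ih =>
        intro i
        rw [Nat.mul_succ, ← add_assoc, (hPQ _).2.2.1, (hPQ _).2.2.2]
        exact ih i
    intro i
    have h4 := h3 (i / k) (i % k)
    rw [Nat.mod_add_div] at h4
    exact ⟨h4.1.symm, h4.2.symm⟩
  set X : ℕ → CV d := fun i => X₀ (i % k) with hXd
  have hX : ∀ i, X (i + k) = X i := by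
    intro i
    rw [hXd]; simp
  have hXnd : ∀ i, ND (X i) := fun i => hX₀nd _
  have hXP : ∀ i, pol (X i) 0 = P i := fun i => (hX₀P _).trans (hPmod i).1
  have hXQ : ∀ i, pol (X i) 1 = Q i := fun i => (hX₀Q _).trans (hPmod i).2
  -- a bound for the coefficients
  obtain ⟨M, hM0, hM⟩ : ∃ M : ℝ, 0 ≤ M ∧ ∀ i, ‖X i‖ ≤ M := by
    refine ⟨∑ i ∈ Finset.range k, ‖X₀ i‖, Finset.sum_nonneg fun _ _ => norm_nonneg _, fun i => ?_⟩
    exact Finset.single_le_sum (f := fun i => ‖X₀ i‖) (fun _ _ => norm_nonneg _)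
      (Finset.mem_range.2 (Nat.mod_lt _ hk))
  set η : ℝ := min (min ε (ε / (M + 1))) 1 with hη
  have hη0 : 0 < η := lt_min (lt_min hε (by positivity)) one_pos
  have hη1 : η ≤ 1 := min_le_right _ _
  obtain ⟨N, Λ, hN, hΛ, hper, ⟨y, hy, hcy⟩, hatt⟩ := seq hd hXnd hk hX hη0 hη1
  refine ⟨N, hN, fun i => pol (cv (Λ i) (X i)) 0, fun i => pol (cv (Λ i) (X i)) 1,
    fun i => sp (cv (Λ i) (X i)), ?_, ?_⟩
  · intro i
    set L := Λ i with hLd
    have hL : ‖L - 1‖ < η := hΛ i
    set x := X i with hxd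
    have hx : ND x := hXnd i
    have hLε : ‖L - 1‖ < ε := hL.trans_le ((min_le_left _ _).trans (min_le_left _ _))
    have hnd : ND (cv L x) := ND_cv (hL.trans_le hη1) hx
    obtain ⟨g1, g2, g3, g4, g5⟩ := h1 (cv L x) hnd
    obtain ⟨-, -, f3, f4, -⟩ := h1 x hx
    have hcl : ∀ (k : Fin 2) (j : ℕ),
        ‖(pol (cv L x) k).coeff j - (pol x k).coeff j‖ < ε := by
      intro k j
      by_cases hj : d < j
      · rw [g4 k j hj, f4 k j hj, sub_zero, norm_zero]; exact hε
      · have e1 := g3 k ⟨j, by omega⟩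
        have e2 := f3 k ⟨j, by omega⟩
        simp only at e1 e2
        rw [e1, e2]
        refine (cv_close L x k _).trans_lt ?_
        have h3 : ‖L - 1‖ < ε / (M + 1) :=
          hL.trans_le ((min_le_left _ _).trans (min_le_right _ _))
        rw [lt_div_iff₀ (by positivity)] at h3
        have h4 : ‖x‖ ≤ M := hM i
        nlinarith [norm_nonneg (L - 1), norm_nonneg x]
    have hlin : ∀ u v : ℂ, L (u, v) = u • L (1, 0) + v • L (0, 1) := by
      intro u v
      rw [← map_smul, ← map_smul, ← map_add]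
      congr 1
      ext <;> simp
    refine ⟨⟨g1, g2, fun j => ⟨?_, ?_⟩⟩, ?_, ⟨(SP d (cv L x) hd1 hnd).1, g5⟩, ?_, ?_, ?_⟩
    · rw [← hXP]; exact hcl 0 j
    · rw [← hXQ]; exact hcl 1 j
    · have b1 : ‖(L - 1) (1, 0)‖ ≤ ‖L - 1‖ := by
        refine ((L - 1).le_opNorm _).trans ?_
        rw [Prod.norm_def]; simp
      have b2 : ‖(L - 1) (0, 1)‖ ≤ ‖L - 1‖ := by
        refine ((L - 1).le_opNorm _).trans ?_
        rw [Prod.norm_def]; simp
      have c1 : (L - 1) (1, 0) = ((L (1, 0)).1 - 1, (L (1, 0)).2) := by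
        rw [sub_apply, one_ap]; ext <;> simp
      have c2 : (L - 1) (0, 1) = ((L (0, 1)).1, (L (0, 1)).2 - 1) := by
        rw [sub_apply, one_ap]; ext <;> simp
      rw [c1, Prod.norm_def] at b1
      rw [c2, Prod.norm_def] at b2
      refine ⟨(L (1, 0)).1, (L (0, 1)).1, (L (1, 0)).2, (L (0, 1)).2,
        ((le_max_left _ _).trans b1).trans_lt hLε, ((le_max_left _ _).trans b2).trans_lt hLε,
        ((le_max_right _ _).trans b1).trans_lt hLε, ((le_max_right _ _).trans b2).trans_lt hLε,
        ?_, ?_⟩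
      · ext j
        rw [Polynomial.coeff_add, Polynomial.coeff_C_mul, Polynomial.coeff_C_mul, ← hXP, ← hXQ]
        by_cases hj : d < j
        · rw [g4 0 j hj, f4 0 j hj, f4 1 j hj]; ring
        · have e0 := g3 0 ⟨j, by omega⟩
          have e1 := f3 0 ⟨j, by omega⟩
          have e2 := f3 1 ⟨j, by omega⟩
          simp only at e0 e1 e2
          rw [e0, e1, e2, cv_zero, hlin]
          simp only [Prod.fst_add, Prod.smul_fst, smul_eq_mul]
          ring
      · ext j
        rw [Polynomial.coeff_add, Polynomial.coeff_C_mul, Polynomial.coeff_C_mul, ← hXP, ← hXQ]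
        by_cases hj : d < j
        · rw [g4 1 j hj, f4 0 j hj, f4 1 j hj]; ring
        · have e0 := g3 1 ⟨j, by omega⟩
          have e1 := f3 0 ⟨j, by omega⟩
          have e2 := f3 1 ⟨j, by omega⟩
          simp only at e0 e1 e2
          rw [e0, e1, e2, cv_one, hlin]
          simp only [Prod.snd_add, Prod.smul_snd, smul_eq_mul]
          ring
    · simp only [hper]
    · simp only [hper]
    · simp only [hper]
  · rw [composition_eq]
    refine ⟨?_, hatt⟩
    have hD : 1 ≤ d ^ (k * N) := Nat.one_le_pow _ _ (by omega)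
    obtain ⟨k1, -⟩ := PQ SP (d ^ (k * N)) hD
    obtain ⟨g1, g2, -, -, g5⟩ := k1 y hy
    rw [hcy]
    exact ⟨pol y 0, pol y 1, g1, g2, (SP _ y hD hy).1, g5⟩

/-- Let `f_i = P_i / Q_i`, `i = 0, 1, 2, …`, be a `k`-periodic sequence of rational maps of
degree `d ≥ 2` (`k = 1`: a single map) and `ε > 0`. There are `N ≥ 1` and a `k N`-periodic sequence
of rational maps `g_i = p_i / q_i` of degree `d`, with coefficients at distance less than `ε` from
those of `P_i, Q_i`, and of the form `g_i = M_i ∘ f_i` with Möbius transformations `M_i` within `ε`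
of the identity, such that the composition `g_{k N - 1} ∘ … ∘ g_1 ∘ g_0` over a period is a
hyperbolic rational map of degree `d ^ (k N)`. -/
theorem result (d : ℕ) (hd : 2 ≤ d) (k : ℕ) (hk : 1 ≤ k) (P Q : ℕ → Polynomial ℂ)
    (hPQ : ∀ i, IsCoprime (P i) (Q i) ∧ max (P i).natDegree (Q i).natDegree = d ∧
      P (i + k) = P i ∧ Q (i + k) = Q i) (ε : ℝ) (hε : 0 < ε) :
    ∃ N : ℕ, 1 ≤ N ∧ ∃ (p q : ℕ → Polynomial ℂ) (g : ℕ → OnePoint ℂ → OnePoint ℂ),
      (∀ i, Near d ε (P i) (Q i) (p i) (q i) ∧ MoebiusPerturbation ε (P i) (Q i) (p i) (q i) ∧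
        IsRationalMap (p i) (q i) (g i) ∧ p (i + k * N) = p i ∧ q (i + k * N) = q i ∧
        g (i + k * N) = g i) ∧
      HyperbolicOfDegree (d ^ (k * N)) (composition g (k * N)) :=
  part1 d hd k hk P Q hPQ ε hε

end Pool.Agent.Results.MP_8f2e1c_an.PeriodicSequences
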