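import Mathlib
import Pool.Agent.Q77.RR.Out

/-! # Random compositions of rational maps are hyperbolic

Let `U` be a nonempty open set of rational maps of degree `d ≥ 2` and choose maps
`g_0, g_1, g_2, …` in `U` at random, independently, with a common law which is positive on the
nonempty open subsets of `U`. We prove a dichotomy. Either `U` acts transitively: every point of the
sphere is mapped to every other point by some composition of maps of `U`. Or the conclusion of
Fatou's conjecture holds for the compositions with overwhelming probability: the probability that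
`g_{n-1} ∘ … ∘ g_0` is not hyperbolic is at most `C ρ^n`, `ρ < 1`, and almost surely
`g_{n-1} ∘ … ∘ g_0` is hyperbolic for all large `n`. The second case occurs for all small
neighbourhoods `U` of all rational maps which have an attracting cycle. -/

set_option autoImplicit false

open Topology Filter MeasureTheory
open scoped OnePoint

namespace Pool.Agent.Results.MP_8f2e1c_an.RandomCompositions

/-- `f` is the rational map `P / Q` on the Riemann sphere. -/
def IsRationalMap (P Q : Polynomial ℂ) (f : OnePoint ℂ → OnePoint ℂ) : Prop :=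
  Continuous f ∧ ∀ z : ℂ, Q.eval z ≠ 0 →
    f (OnePoint.some z) = OnePoint.some (P.eval z / Q.eval z)

/-- Every critical point of `f` (point where `f` is not locally injective) has an orbit converging
to an attracting periodic cycle: word for word the condition on `f` in the frozen statement
S05373. -/
def CriticalPointsAttracted (f : OnePoint ℂ → OnePoint ℂ) : Prop :=
  ∀ c : OnePoint ℂ, (¬ ∃ U ∈ nhds c, Set.InjOn f U) →
    ∃ z : OnePoint ℂ, ∃ n : ℕ, 0 < n ∧ f^[n] z = z ∧
      (∃ U ∈ nhds z, ∀ w ∈ U,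
        Filter.Tendsto (fun k : ℕ => f^[n * k] w) Filter.atTop (nhds z)) ∧
      Filter.Tendsto (fun k : ℕ => f^[n * k] c) Filter.atTop (nhds z)

/-- `f` is a hyperbolic rational map of degree `D`. -/
def HyperbolicOfDegree (D : ℕ) (f : OnePoint ℂ → OnePoint ℂ) : Prop :=
  (∃ A B : Polynomial ℂ, IsCoprime A B ∧ max A.natDegree B.natDegree = D ∧
    IsRationalMap A B f) ∧ CriticalPointsAttracted f

/-- `f` has an attracting cycle: a point `a` with `f^n(a) = a`, such that the iterates of `f^n`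
converge to `a` uniformly on a neighbourhood of `a`. -/
def HasAttractingCycle (f : OnePoint ℂ → OnePoint ℂ) : Prop :=
  ∃ (n : ℕ) (a : OnePoint ℂ), 0 < n ∧ f^[n] a = a ∧
    ∃ V ∈ 𝓝 a, ∀ N ∈ 𝓝 a, ∀ᶠ k : ℕ in atTop, ∀ w ∈ V, f^[n * k] w ∈ N

/-- Pairs of polynomials of degree at most `d`, given by their coefficients. -/
abbrev Coeffs (d : ℕ) : Type := Fin 2 × Fin (d + 1) → ℂ

/-- the numerator -/
noncomputable def num {d : ℕ} (x : Coeffs d) : Polynomial ℂ :=
  ∑ j : Fin (d + 1), Polynomial.monomial (j : ℕ) (x (0, j))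

/-- the denominator -/
noncomputable def den {d : ℕ} (x : Coeffs d) : Polynomial ℂ :=
  ∑ j : Fin (d + 1), Polynomial.monomial (j : ℕ) (x (1, j))

/-- `x` is the coefficient vector of the rational map `f` of degree exactly `d`. -/
def IsCoeffVector {d : ℕ} (x : Coeffs d) (f : OnePoint ℂ → OnePoint ℂ) : Prop :=
  IsCoprime (num x) (den x) ∧ max (num x).natDegree (den x).natDegree = d ∧
    IsRationalMap (num x) (den x) f

/-- The composition `R(t_{n-1}) ∘ … ∘ R(t_1) ∘ R(t_0)`. -/
def composition {d n : ℕ} (R : Coeffs d → OnePoint ℂ → OnePoint ℂ) (t : Fin n → Coeffs d) :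
    OnePoint ℂ → OnePoint ℂ :=
  fun z => (List.ofFn t).foldl (fun z x => R x z) z

/-- Every point of the sphere is mapped to every point of the sphere by some composition of maps
of the family. -/
def Transitive {d : ℕ} (U : Set (Coeffs d)) (R : Coeffs d → OnePoint ℂ → OnePoint ℂ) : Prop :=
  ∀ z w : OnePoint ℂ, ∃ n : ℕ, 0 < n ∧ ∃ t : Fin n → Coeffs d,
    (∀ i, t i ∈ U) ∧ composition R t z = w

open Pool.Agent.H790R3.RB Pool.Agent.Q77.RR

theorem part1 (d : ℕ) (hd : 2 ≤ d) (U : Set (Coeffs d))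
    (R : Coeffs d → OnePoint ℂ → OnePoint ℂ)
    (hUo : IsOpen U) (hUn : U.Nonempty) (hR : ∀ x ∈ U, IsCoeffVector x (R x))
    (ν : Measure (Coeffs d)) [IsProbabilityMeasure ν] (hνU : ν Uᶜ = 0)
    (hνo : ∀ V : Set (Coeffs d), IsOpen V → V.Nonempty → V ⊆ U → ν V ≠ 0) :
    Transitive U R ∨
      ((∃ C ρ : ℝ, 0 < C ∧ 0 < ρ ∧ ρ < 1 ∧ ∀ n : ℕ, Measure.pi (fun _ : Fin n => ν)
        {t : Fin n → Coeffs d | ¬ HyperbolicOfDegree (d ^ n) (composition R t)} ≤
          ENNReal.ofReal (C * ρ ^ n)) ∧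
      ∀ᵐ t ∂(Measure.infinitePi fun _ : ℕ => ν), ∀ᶠ n : ℕ in atTop,
        HyperbolicOfDegree (d ^ n) (composition R fun i : Fin n => t i)) := by
  by_cases hT : Transitive U R
  · exact Or.inl hT
  · right
    unfold Transitive at hT
    push Not at hT
    obtain ⟨z, w, hzw⟩ := hT
    have h1 : ∀ l : List (CV d), l ≠ [] → (∀ t ∈ l, t ∈ U) → act R l z ≠ w := by
      intro l hl hlU
      have h2 := hzw l.length (List.length_pos_of_ne_nil hl) (fun i => l.get i)
        (fun i => hlU _ (List.get_mem l i))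
      have e : List.ofFn (fun i => l.get i) = l := List.ofFn_get l
      unfold composition at h2
      rw [e] at h2
      exact h2
    obtain ⟨C, ρ, hC, hρ, hρ1, h⟩ := final hd hUo hUn (fun x hx => ⟨(hR x hx).1, (hR x hx).2.1⟩)
      (fun x hx => (hR x hx).2.2) h1 ν hνU hνo
    have h' : ∀ n : ℕ, Measure.pi (fun _ : Fin n => ν)
        {t : Fin n → Coeffs d | ¬ HyperbolicOfDegree (d ^ n) (composition R t)} ≤
          ENNReal.ofReal (C * ρ ^ n) := h
    exact ⟨⟨C, ρ, hC, hρ, hρ1, h'⟩,
      ae_main ν (fun n t => HyperbolicOfDegree (d ^ n) (composition R t)) hC hρ hρ1 h'⟩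

theorem part2 (d : ℕ) (hd : 2 ≤ d) (x₀ : Coeffs d) (f : OnePoint ℂ → OnePoint ℂ)
    (hf : IsCoeffVector x₀ f) (ha : HasAttractingCycle f) :
    ∃ ε : ℝ, 0 < ε ∧ ∀ (U : Set (Coeffs d)) (R : Coeffs d → OnePoint ℂ → OnePoint ℂ),
      (∀ x ∈ U, IsCoeffVector x (R x)) → (∀ x ∈ U, ∀ i, ‖x i - x₀ i‖ < ε) →
      ¬ Transitive U R := by
  obtain ⟨n, a, hn, hfix, hV⟩ := ha
  obtain ⟨ε, hε, h⟩ := final2 hd hf.1 hf.2.1 hf.2.2.1 hf.2.2.2 (n := n) (a := a) ⟨hn, hfix, hV⟩
  refine ⟨ε, hε, fun U R hR hUε hT => ?_⟩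
  obtain ⟨y₀, hy₀⟩ := h U (fun x hx => ⟨(hR x hx).1, (hR x hx).2.1⟩) hUε R
    (fun x hx => (hR x hx).2.2)
  obtain ⟨m, hm, t, ht, htw⟩ := hT a y₀
  refine hy₀ (List.ofFn t) ?_ ?_ htw
  · intro h0
    have := congrArg List.length h0
    simp at this
    omega
  · intro s hs
    rw [List.mem_ofFn'] at hs
    obtain ⟨j, rfl⟩ := hs
    exact ht j

/-- Let `d ≥ 2`. (1) Let `U` be a nonempty open set of (coefficient vectors of) rational maps of
degree `d`, and `ν` a probability measure carried by `U` and positive on the nonempty open subsets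
of `U`. Choose `g_0, g_1, …` independently with law `ν`. Then either every point of the sphere is
mapped to every point of the sphere by some composition of maps of `U`, or the probability that
`g_{n-1} ∘ … ∘ g_0` is not hyperbolic is at most `C ρ^n` with `ρ < 1`, and almost surely
`g_{n-1} ∘ … ∘ g_0` is hyperbolic for all large `n`. (2) If the rational map `f` of degree `d` has
an attracting cycle then the first case does not occur for the sets `U` in a small neighbourhood
of `f`. -/
theorem result (d : ℕ) (hd : 2 ≤ d) :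
    (∀ (U : Set (Coeffs d)) (R : Coeffs d → OnePoint ℂ → OnePoint ℂ), IsOpen U → U.Nonempty →
      (∀ x ∈ U, IsCoeffVector x (R x)) →
      ∀ (ν : Measure (Coeffs d)) [IsProbabilityMeasure ν], ν Uᶜ = 0 →
      (∀ V : Set (Coeffs d), IsOpen V → V.Nonempty → V ⊆ U → ν V ≠ 0) →
      Transitive U R ∨
      ((∃ C ρ : ℝ, 0 < C ∧ 0 < ρ ∧ ρ < 1 ∧ ∀ n : ℕ, Measure.pi (fun _ : Fin n => ν)
        {t : Fin n → Coeffs d | ¬ HyperbolicOfDegree (d ^ n) (composition R t)} ≤
          ENNReal.ofReal (C * ρ ^ n)) ∧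
      ∀ᵐ t ∂(Measure.infinitePi fun _ : ℕ => ν), ∀ᶠ n : ℕ in atTop,
        HyperbolicOfDegree (d ^ n) (composition R fun i : Fin n => t i))) ∧
    (∀ (x₀ : Coeffs d) (f : OnePoint ℂ → OnePoint ℂ), IsCoeffVector x₀ f →
      HasAttractingCycle f →
      ∃ ε : ℝ, 0 < ε ∧ ∀ (U : Set (Coeffs d)) (R : Coeffs d → OnePoint ℂ → OnePoint ℂ),
        (∀ x ∈ U, IsCoeffVector x (R x)) → (∀ x ∈ U, ∀ i, ‖x i - x₀ i‖ < ε) →
        ¬ Transitive U R) :=
  ⟨fun U R hUo hUn hR ν _ hνU hνo => part1 d hd U R hUo hUn hR ν hνU hνo,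
    fun x₀ f hf ha => part2 d hd x₀ f hf ha⟩

end Pool.Agent.Results.MP_8f2e1c_an.RandomCompositions
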